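import Mathlib
import Pool.Agent.Q147.Reflexive

/-!
# MP_329fc6_gt, Q2 : a precompact abelian group that is not a quotient of a reflexive precompact
group

The group is the countable Boolean group `⨁_ℕ ℤ/2` with the topology of all its characters.
-/

noncomputable section

namespace Pool.Agent.Results.MP_329fc6_gt.BooleanNotQuotient

open Set Topology Filter Pool.Agent.Q147.Reflexive

universe u

/-- The countable Boolean group. -/
def V : Type := ℕ →₀ ZMod 2

instance : AddCommGroup V := inferInstanceAs (AddCommGroup (ℕ →₀ ZMod 2))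
instance : Infinite V := inferInstanceAs (Infinite (ℕ →₀ ZMod 2))

/-- The coordinates. -/
def co (v : V) (n : ℕ) : ZMod 2 := (show ℕ →₀ ZMod 2 from v) n

theorem co_add (v w : V) (n : ℕ) : co (v + w) n = co v n + co w n :=
  Finsupp.add_apply _ _ _

theorem co_zero (n : ℕ) : co 0 n = 0 := rfl

theorem ext_co {v w : V} (h : ∀ n, co v n = co w n) : v = w := Finsupp.ext h

/-- The pairing with `ℕ → ZMod 2`. -/
def pr (φ : ℕ → ZMod 2) (v : V) : ZMod 2 := (show ℕ →₀ ZMod 2 from v).sum fun n a => a * φ n

theorem pr_add (φ : ℕ → ZMod 2) (v w : V) : pr φ (v + w) = pr φ v + pr φ w :=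
  Finsupp.sum_add_index' (fun _ => zero_mul _) (fun _ _ _ => add_mul _ _ _)

theorem pr_zero (φ : ℕ → ZMod 2) : pr φ 0 = 0 := Finsupp.sum_zero_index

theorem continuous_pr (v : V) : Continuous fun φ : ℕ → ZMod 2 => pr φ v := by
  unfold pr Finsupp.sum
  refine continuous_finsetSum _ fun n _ => ?_
  exact (continuous_of_discreteTopology (f := fun x : ZMod 2 => _ * x)).comp
    (continuous_apply n)

/-- Changing `φ` at one point of the support of `v`. -/
theorem pr_update (φ : ℕ → ZMod 2) (v : V) (m : ℕ) (hm : co v m ≠ 0) (a : ZMod 2) :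
    ∃ c : ZMod 2, pr (Function.update φ m c) v = a := by
  classical
  have h1 : ∀ c, pr (Function.update φ m c) v = co v m * c + pr (Function.update φ m 0) v := by
    intro c
    have hs : m ∈ (show ℕ →₀ ZMod 2 from v).support := Finsupp.mem_support_iff.2 hm
    unfold pr Finsupp.sum
    rw [← Finset.add_sum_erase _ _ hs, ← Finset.add_sum_erase _ _ hs]
    simp only [Function.update_self, mul_zero, zero_add]
    congr 1
    refine Finset.sum_congr rfl fun n hn => ?_
    rw [Function.update_of_ne (Finset.ne_of_mem_erase hn),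
      Function.update_of_ne (Finset.ne_of_mem_erase hn)]
  have hm1 : co v m = 1 := by
    have : ∀ a : ZMod 2, a ≠ 0 → a = 1 := by decide
    exact this _ hm
  refine ⟨a - pr (Function.update φ m 0) v, ?_⟩
  rw [h1, hm1, one_mul, sub_add_cancel]

/-- The homomorphism `v ↦ (φ ↦ φ(v))`. -/
def vhom : V →+ ((ℕ → ZMod 2) → ZMod 2) where
  toFun v := fun φ => pr φ v
  map_zero' := by ext φ; exact pr_zero φ
  map_add' v w := by ext φ; exact pr_add φ v w

/-- The topology of all characters. -/
instance : TopologicalSpace V := TopologicalSpace.induced vhom inferInstance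

instance : IsTopologicalAddGroup V := topologicalAddGroup_induced vhom

/-- The character of `V` given by `φ`. -/
def vchar (φ : ℕ → ZMod 2) : Dual V where
  toFun v := (ZMod.toAddCircle (pr φ v) : T)
  map_zero' := by rw [pr_zero, map_zero]
  map_add' v w := by rw [pr_add, map_add]
  continuous_toFun := (continuous_of_discreteTopology
    (f := fun a : ZMod 2 => (ZMod.toAddCircle a : T))).comp
      ((continuous_apply φ).comp (continuous_induced_dom (f := vhom)))

theorem norm_one_half : ‖(ZMod.toAddCircle (1 : ZMod 2) : T)‖ = 1 / 2 := by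
  have h : (ZMod.toAddCircle (1 : ZMod 2) : T) = ((1 / 2 : ℝ) : T) := by
    have := ZMod.toAddCircle_intCast (N := 2) 1
    simpa using this
  rw [h, AddCircle.norm_eq]
  have h6 : round ((1 : ℝ)⁻¹ * (1 / 2)) = 1 := by
    rw [inv_one, one_mul, round_eq, Int.floor_eq_iff]
    norm_num
  rw [h6]
  norm_num

theorem vchar_sep (v : V) (h : ∀ φ, ‖vchar φ v‖ < 1 / 4) : v = 0 := by
  apply ext_co
  intro n
  rw [co_zero]
  by_contra hne
  obtain ⟨c, hc⟩ := pr_update 0 v n hne 1
  have h1 := h (Function.update 0 n c)
  have h2 : vchar (Function.update 0 n c) v = ZMod.toAddCircle (1 : ZMod 2) := by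
    change ZMod.toAddCircle (pr (Function.update 0 n c) v) = _
    rw [hc]
  rw [h2, norm_one_half] at h1
  norm_num at h1

theorem vhom_injective : Function.Injective vhom := by
  rw [injective_iff_map_eq_zero]
  intro v hv
  apply vchar_sep
  intro φ
  have h1 : pr φ v = 0 := congrFun hv φ
  have h2 : vchar φ v = 0 := by
    change ZMod.toAddCircle (pr φ v) = 0
    rw [h1, map_zero]
  rw [h2, norm_zero]; norm_num

instance : T2Space V := T2Space.of_injective_continuous vhom_injective continuous_induced_dom

theorem precompact_V : Precompact V := precompact_of_isInducing vhom ⟨rfl⟩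

/-- No nontrivial convergent sequences. -/
theorem V_no_seq (c : ℕ → V) (a : V) (hc : Function.Injective c)
    (hlim : Tendsto c atTop (𝓝 a)) : False := by
  classical
  have h1 : Tendsto (fun n => c n - a) atTop (𝓝 0) := by
    have := hlim.sub_const a
    rwa [sub_self] at this
  -- all characters converge to zero
  have h2 : ∀ φ, ∀ᶠ n in atTop, pr φ (c n - a) = 0 := by
    intro φ
    have hcont : Continuous fun v : V => pr φ v :=
      (continuous_apply φ).comp (continuous_induced_dom (f := vhom))
    have h3 := (hcont.tendsto 0).comp h1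
    rw [pr_zero] at h3
    have h4 := h3 ((isOpen_discrete {(0 : ZMod 2)}).mem_nhds rfl)
    exact h4
  -- a generic character takes the value `1` infinitely often
  have hO : ∀ N : ℕ, IsOpen {φ : ℕ → ZMod 2 | ∃ k, N ≤ k ∧ pr φ (c k - a) = 1} := by
    intro N
    have : {φ : ℕ → ZMod 2 | ∃ k, N ≤ k ∧ pr φ (c k - a) = 1} =
        ⋃ k ∈ {k | N ≤ k}, {φ : ℕ → ZMod 2 | pr φ (c k - a) = 1} := by
      ext φ; simp
    rw [this]
    exact isOpen_biUnion fun k _ => (isOpen_discrete {(1 : ZMod 2)}).preimage (continuous_pr _)
  have hD : ∀ N : ℕ, Dense {φ : ℕ → ZMod 2 | ∃ k, N ≤ k ∧ pr φ (c k - a) = 1} := by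
    intro N
    rw [dense_iff_inter_open]
    rintro U hU ⟨ψ, hψ⟩
    obtain ⟨F, u, hu, hsub⟩ := isOpen_pi_iff.1 hU ψ hψ
    -- a vector not supported in `F`
    have hex : ∃ k, N ≤ k ∧ ∃ m, m ∉ F ∧ co (c k - a) m ≠ 0 := by
      by_contra hcon
      push Not at hcon
      have hinj : Set.InjOn (fun k : ℕ => fun i : F => co (c k - a) i) (Set.Ici N) := by
        intro k hk l hl hkl
        have h5 : c k - a = c l - a := by
          apply ext_co
          intro n
          by_cases hn : n ∈ F
          · exact congrFun hkl ⟨n, hn⟩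
          · rw [hcon k hk n hn, hcon l hl n hn]
        exact hc (sub_left_injective h5)
      exact (Set.Ici_infinite N) (Set.Finite.of_injOn (t := Set.univ)
        (fun _ _ => Set.mem_univ _) hinj (Set.toFinite _))
    obtain ⟨k, hk, m, hm, hne⟩ := hex
    obtain ⟨b, hb⟩ := pr_update ψ (c k - a) m hne 1
    refine ⟨Function.update ψ m b, hsub ?_, k, hk, hb⟩
    intro i hi
    have : i ≠ m := fun h => hm (h ▸ hi)
    rw [Function.update_of_ne this]
    exact (hu i hi).2
  obtain ⟨φ, hφ⟩ := (dense_iInter_of_isOpen hO hD).nonempty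
  rw [Set.mem_iInter] at hφ
  obtain ⟨N, hN⟩ := eventually_atTop.1 (h2 φ)
  obtain ⟨k, hk, h1⟩ := hφ N
  rw [hN k hk] at h1
  exact zero_ne_one h1

theorem V_compact_finite (C : Set V) (hC : IsCompact C) : C.Finite := by
  refine finite_of_isCompact (M := ℕ → ZMod 2) (fun v n => pr (Pi.single n 1) v) ?_ ?_
    V_no_seq C hC
  · exact continuous_pi fun n =>
      (continuous_apply (Pi.single n 1 : ℕ → ZMod 2)).comp (continuous_induced_dom (f := vhom))
  · intro v w h
    apply ext_co
    intro n
    have h3 : ∀ u : V, pr (Pi.single n 1) u = co u n := by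
      intro u
      simp only [pr, Finsupp.sum]
      rw [Finset.sum_eq_single n]
      · rw [Pi.single_eq_same, mul_one]; rfl
      · intro b _ hb
        rw [Pi.single_eq_of_ne hb, mul_zero]
      · intro hn
        rw [Finsupp.notMem_support_iff.1 hn, zero_mul]
    have := congrFun h n
    simp only at this
    rwa [h3, h3] at this

/-- There is a Hausdorff precompact abelian group `H` (a countable Boolean group) that is not
topologically isomorphic to a quotient `G ⧸ N` of a reflexive precompact abelian group `G` by a
closed subgroup `N`. -/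
theorem result : ∃ (H : Type) (_ : AddCommGroup H) (_ : TopologicalSpace H),
    IsTopologicalAddGroup H ∧ T2Space H ∧ Precompact H ∧ Countable H ∧ (∀ h : H, h + h = 0) ∧
    ∀ (G : Type u) [AddCommGroup G] [TopologicalSpace G] [IsTopologicalAddGroup G] [T2Space G],
      Precompact G → IsReflexive G → ∀ N : AddSubgroup G, IsClosed (N : Set G) →
        IsEmpty ((G ⧸ N) ≃ₜ+ H) := by
  refine ⟨V, inferInstance, inferInstance, inferInstance, inferInstance, precompact_V,
    inferInstanceAs (Countable (ℕ →₀ ZMod 2)), ?_, ?_⟩
  · intro h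
    apply ext_co
    intro n
    rw [co_add, co_zero]
    have : ∀ a : ZMod 2, a + a = 0 := by decide
    exact this _
  · intro G _ _ _ _ hG hR N _
    refine ⟨fun e => ?_⟩
    let π : G →ₜ+ V :=
      { toFun := fun g => e (QuotientAddGroup.mk g)
        map_zero' := by
          rw [QuotientAddGroup.mk_zero, map_zero]
        map_add' := fun x y => by
          rw [QuotientAddGroup.mk_add, map_add]
        continuous_toFun := e.continuous_toFun.comp continuous_quot_mk }
    refine no_surjection V_compact_finite vchar (fun v => ?_) vchar_sep hG hR.continuous π ?_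
    · exact (continuous_of_discreteTopology
        (f := fun a : ZMod 2 => (ZMod.toAddCircle a : T))).comp (continuous_pr v)
    · intro v
      obtain ⟨g, hg⟩ := QuotientAddGroup.mk_surjective (e.symm v)
      refine ⟨g, ?_⟩
      change e (QuotientAddGroup.mk g) = v
      rw [hg]
      exact e.apply_symm_apply v

end Pool.Agent.Results.MP_329fc6_gt.BooleanNotQuotient
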